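import Pool.Agent.H97.LIM.AvL

/-!
# The disc average is self adjoint on periodic functions
-/

set_option autoImplicit false

open Complex MeasureTheory Set Filter Topology Metric

namespace Pool.Agent.H97.LIM

open Pool.Agent.H20.LIM

theorem strip_meas (P : ℝ) : MeasurableSet (strip P) := by
  have h : strip P = Complex.im ⁻¹' (Ico 0 P) := by
    ext z
    simp [strip]
  rw [h]
  exact Complex.measurable_im measurableSet_Ico

theorem exp_strip (P c x₀ : ℝ) (hc : 0 < c) :
    IntegrableOn (fun z : ℂ => Real.exp (c * z.re)) (strip P ∩ {z | z.re ≤ x₀}) := by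
  have h1 : IntegrableOn (fun x : ℝ => Real.exp (c * x)) (Iic x₀) :=
    integrableOn_exp_mul_Iic hc x₀
  have h2 : IntegrableOn (fun _ : ℝ => (1 : ℝ)) (Ico 0 P) := by
    simp [IntegrableOn]
  have h3 : IntegrableOn (fun p : ℝ × ℝ => Real.exp (c * p.1) * 1) (Iic x₀ ×ˢ Ico 0 P)
      (volume.prod volume) := by
    rw [IntegrableOn, ← Measure.prod_restrict]
    exact Integrable.mul_prod h1 h2
  have h4 := Complex.volume_preserving_equiv_real_prod
  have h5 := (h4.integrableOn_comp_preimage
    (Complex.measurableEquivRealProd.measurableEmbedding)).2 h3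
  refine IntegrableOn.congr_fun (h5.mono_set ?_) ?_ ?_
  · rintro z ⟨hz1, hz2⟩
    exact ⟨hz2, hz1.1, hz1.2⟩
  · intro z _
    simp [Complex.measurableEquivRealProd_apply]
  · exact (strip_meas P).inter (measurableSet_le Complex.measurable_re measurable_const)

theorem weight (P C c x₀ D B : ℝ) (hc : 0 < c) (g : ℂ → ℝ) (hgl : LocallyIntegrable g volume)
    (hg : ∀ z : ℂ, z.re ≤ x₀ → |g z| ≤ C * Real.exp (c * z.re)) :
    IntegrableOn (fun z => g z * (D * (1 + |z.re|))) (strip P ∩ {z | z.re ≤ B}) := by
  have hC : 0 ≤ C := by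
    have h := hg (x₀ : ℂ) (by simp)
    have h2 := (abs_nonneg _).trans h
    exact nonneg_of_mul_nonneg_left h2 (Real.exp_pos _)
  have hleft : IntegrableOn (fun z => g z * (D * (1 + |z.re|))) (strip P ∩ {z | z.re ≤ x₀}) := by
    have h1 := (exp_strip P (c / 2) x₀ (by positivity)).const_mul
      (C * |D| * ((1 + |x₀| + 2 / c) * Real.exp (c / 2 * x₀)))
    refine Integrable.mono' h1 ?_ ?_
    · have h2 : AEStronglyMeasurable g (volume.restrict (strip P ∩ {z | z.re ≤ x₀})) :=
        hgl.aestronglyMeasurable.restrict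
      refine h2.mul ?_
      have h3 : Continuous (fun z : ℂ => D * (1 + |z.re|)) := by fun_prop
      exact h3.aestronglyMeasurable
    · refine (ae_restrict_iff' ((strip_meas P).inter
        (measurableSet_le Complex.measurable_re measurable_const))).2
        (Eventually.of_forall ?_)
      rintro z ⟨_, hz⟩
      change z.re ≤ x₀ at hz
      rw [Real.norm_eq_abs, abs_mul, abs_mul]
      have h4 := hg z hz
      have h5 : |z.re| ≤ |x₀| + (x₀ - z.re) := by
        have := abs_sub_abs_le_abs_sub z.re x₀
        rw [abs_sub_comm, abs_of_nonneg (by linarith : 0 ≤ x₀ - z.re)] at this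
        linarith
      have h6 : x₀ - z.re ≤ 2 / c * Real.exp (c / 2 * (x₀ - z.re)) := by
        have := Real.add_one_le_exp (c / 2 * (x₀ - z.re))
        have h7 : x₀ - z.re = 2 / c * (c / 2 * (x₀ - z.re)) := by
          field_simp
        calc x₀ - z.re = 2 / c * (c / 2 * (x₀ - z.re)) := h7
          _ ≤ 2 / c * Real.exp (c / 2 * (x₀ - z.re)) := by
            apply mul_le_mul_of_nonneg_left _ (by positivity)
            linarith
      have h8 : (1 : ℝ) ≤ Real.exp (c / 2 * (x₀ - z.re)) := by
        apply Real.one_le_exp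
        have : 0 ≤ x₀ - z.re := by linarith
        positivity
      have h9 : 1 + |z.re| ≤ (1 + |x₀| + 2 / c) * Real.exp (c / 2 * (x₀ - z.re)) := by
        have h10 : (1 + |x₀|) ≤ (1 + |x₀|) * Real.exp (c / 2 * (x₀ - z.re)) := by
          have : 0 ≤ 1 + |x₀| := by positivity
          nlinarith
        nlinarith
      have h11 : abs (1 + |z.re|) = 1 + |z.re| := abs_of_nonneg (by positivity)
      rw [h11]
      have h12 : Real.exp (c * z.re) * Real.exp (c / 2 * (x₀ - z.re)) =
          Real.exp (c / 2 * x₀) * Real.exp (c / 2 * z.re) := by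
        rw [← Real.exp_add, ← Real.exp_add]
        congr 1
        ring
      calc |g z| * (|D| * (1 + |z.re|))
          ≤ (C * Real.exp (c * z.re)) * (|D| * ((1 + |x₀| + 2 / c) *
              Real.exp (c / 2 * (x₀ - z.re)))) := by
            gcongr
        _ = C * |D| * (1 + |x₀| + 2 / c) * (Real.exp (c * z.re) *
              Real.exp (c / 2 * (x₀ - z.re))) := by ring
        _ = C * |D| * ((1 + |x₀| + 2 / c) * Real.exp (c / 2 * x₀)) *
              Real.exp (c / 2 * z.re) := by
            rw [h12]
            ring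
  have hK : IsCompact (Icc x₀ B ×ℂ Icc 0 P) := isCompact_Icc.reProdIm isCompact_Icc
  have hmid : IntegrableOn (fun z => g z * (D * (1 + |z.re|))) (Icc x₀ B ×ℂ Icc 0 P) := by
    refine (hgl.integrableOn_isCompact hK).mul_continuousOn ?_ hK
    fun_prop
  refine (hleft.union hmid).mono_set ?_
  rintro z ⟨hz1, hz2⟩
  rcases le_total z.re x₀ with h | h
  · exact Or.inl ⟨hz1, h⟩
  · refine Or.inr ?_
    rw [Complex.mem_reProdIm]
    exact ⟨⟨h, hz2⟩, hz1.1, hz1.2.le⟩

theorem pf_adj (hSTR : T_STR) : T_ADJ := by
  intro P r g u hP hr hgp hup huc hgl ⟨b, hb⟩ ⟨C, hC⟩ ⟨C', c, x₀, hc, hg⟩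
  have hSm : MeasurableSet (strip P) := strip_meas P
  have hC0 : 0 ≤ C := by
    have h := (abs_nonneg _).trans (hC 0)
    simpa using h
  set W : ℂ → ℝ := indicator {z : ℂ | z.re ≤ b + r}
    (fun z => g z * (C * (1 + r) * (1 + |z.re|))) with hW
  have hRm : MeasurableSet {z : ℂ | z.re ≤ b + r} :=
    measurableSet_le Complex.measurable_re measurable_const
  have hWi : IntegrableOn W (strip P) := by
    rw [hW, integrableOn_indicator_iff hRm, inter_comm]
    exact weight P C' c x₀ (C * (1 + r)) (b + r) hc g hgl hg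
  have hbd : ∀ z h : ℂ, ‖h‖ < r → ‖g z * u (z + h)‖ ≤ ‖W z‖ := by
    intro z h hh
    have hre : |h.re| < r := (Complex.abs_re_le_norm h).trans_lt hh
    rw [abs_lt] at hre
    by_cases hz : z.re ≤ b + r
    · rw [hW, indicator_of_mem (show z ∈ {z : ℂ | z.re ≤ b + r} from hz), norm_mul, norm_mul]
      refine mul_le_mul_of_nonneg_left ?_ (norm_nonneg _)
      rw [Real.norm_eq_abs, Real.norm_eq_abs]
      have h1 : 0 ≤ C * (1 + r) * (1 + |z.re|) := by positivity
      rw [abs_of_nonneg h1]
      refine (hC _).trans ?_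
      have h2 : |(z + h).re| ≤ |z.re| + r := by
        rw [Complex.add_re]
        refine (abs_add_le _ _).trans ?_
        have : |h.re| ≤ r := abs_le.2 ⟨hre.1.le, hre.2.le⟩
        linarith
      have h3 : 1 + |(z + h).re| ≤ (1 + r) * (1 + |z.re|) := by
        have h4 : 0 ≤ r * |z.re| := by positivity
        nlinarith
      calc C * (1 + |(z + h).re|) ≤ C * ((1 + r) * (1 + |z.re|)) :=
            mul_le_mul_of_nonneg_left h3 hC0
        _ = C * (1 + r) * (1 + |z.re|) := by ring
    · have h1 : u (z + h) = 0 := by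
        apply hb
        rw [Complex.add_re]
        linarith [hre.1]
      rw [h1]
      simp
  have hgm : AEStronglyMeasurable g volume := hgl.aestronglyMeasurable
  -- the product
  set μS : Measure ℂ := volume.restrict (strip P) with hμS
  set μB : Measure ℂ := volume.restrict (ball (0 : ℂ) r) with hμB
  have : IsFiniteMeasure μB := ⟨by
    rw [hμB, Measure.restrict_apply_univ]
    exact measure_ball_lt_top⟩
  have hprod : μS.prod μB = (volume.prod volume).restrict (strip P ×ˢ ball (0 : ℂ) r) := by
    rw [hμS, hμB, Measure.prod_restrict]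
  have hFi : Integrable (fun p : ℂ × ℂ => g p.1 * u (p.1 + p.2)) (μS.prod μB) := by
    have h1 : Integrable (fun p : ℂ × ℂ => W p.1 * (1 : ℝ)) (μS.prod μB) :=
      Integrable.mul_prod hWi (integrable_const (1 : ℝ))
    refine Integrable.mono h1 ?_ ?_
    · refine AEStronglyMeasurable.mul ?_ ?_
      · exact AEStronglyMeasurable.comp_fst (hgm.restrict)
      · exact (huc.comp (continuous_fst.add continuous_snd)).aestronglyMeasurable
    · rw [hprod]
      refine (ae_restrict_iff' (hSm.prod measurableSet_ball)).2 (Eventually.of_forall ?_)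
      rintro ⟨z, h⟩ ⟨_, hh⟩
      rw [mem_ball_zero_iff] at hh
      simpa using hbd z h hh
  have hslice : ∀ h : ℂ, ‖h‖ < r → Integrable (fun z => g z * u (z + h)) μS := by
    intro h hh
    refine Integrable.mono hWi ?_ (Eventually.of_forall fun z => hbd z h hh)
    exact hgm.restrict.mul ((huc.comp (continuous_id.add continuous_const)).aestronglyMeasurable)
  have hper : ∀ (h z : ℂ), g (z + P * I) * u (z + P * I + h) = g z * u (z + h) := by
    intro h z
    rw [hgp, show z + P * I + h = (z + h) + P * I by ring, hup]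
  have hshift : ∀ h : ℂ, ‖h‖ < r → Integrable (fun z => g (z - h) * u z) μS ∧
      ∫ z, g (z - h) * u z ∂μS = ∫ z, g z * u (z + h) ∂μS := by
    intro h hh
    have h1 := hSTR P (fun z => g z * u (z + h)) hP (hper h) (hslice h hh) (-h)
    simp only [← sub_eq_add_neg, sub_add_cancel] at h1
    exact h1
  have hnshift : ∀ h : ℂ, ‖h‖ < r →
      ∫ z, ‖g (z - h) * u z‖ ∂μS = ∫ z, ‖g z * u (z + h)‖ ∂μS := by
    intro h hh
    have h1 := hSTR P (fun z => ‖g z * u (z + h)‖) hP (fun z => by rw [hper h])
      (hslice h hh).norm (-h)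
    simp only [← sub_eq_add_neg, sub_add_cancel] at h1
    exact h1.2
  have hHi : Integrable (fun p : ℂ × ℂ => g (p.1 - p.2) * u p.1) (μS.prod μB) := by
    have hm : AEStronglyMeasurable (fun p : ℂ × ℂ => g (p.1 - p.2) * u p.1) (μS.prod μB) := by
      refine AEStronglyMeasurable.mul ?_ ?_
      · rw [hprod]
        refine AEStronglyMeasurable.restrict ?_
        exact hgm.comp_quasiMeasurePreserving
          (quasiMeasurePreserving_sub_of_right_invariant volume volume)
      · exact (huc.comp continuous_fst).aestronglyMeasurable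
    refine (integrable_prod_iff' hm).2 ⟨?_, ?_⟩
    · refine (ae_restrict_iff' measurableSet_ball).2 (Eventually.of_forall ?_)
      intro h hh
      rw [mem_ball_zero_iff] at hh
      exact (hshift h hh).1
    · have h1 := hFi.norm.integral_prod_right
      refine h1.congr ?_
      refine (ae_restrict_iff' measurableSet_ball).2 (Eventually.of_forall ?_)
      intro h hh
      rw [mem_ball_zero_iff] at hh
      exact (hnshift h hh).symm
  have hgu : Integrable (fun z => g z * u z) μS := by
    have := hslice 0 (by simpa using hr)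
    simpa using this
  have hA1 : (fun z => ∫ h, g z * u (z + h) ∂μB) =
      fun z => (Real.pi * r ^ 2) * (g z * av r u z) := by
    funext z
    rw [integral_const_mul, av_eq r hr.le, ← hμB]
    have : Real.pi * r ^ 2 ≠ 0 := by positivity
    field_simp
  have hA2 : (fun z => ∫ h, g (z - h) * u z ∂μB) =
      fun z => (Real.pi * r ^ 2) * (av r g z * u z) := by
    funext z
    rw [integral_mul_const, av_eq' r hr.le, ← hμB]
    have : Real.pi * r ^ 2 ≠ 0 := by positivity
    field_simp
  have hI1 : Integrable (fun z => g z * av r u z) μS := by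
    have h1 := hFi.integral_prod_left
    simp only at h1
    rw [hA1] at h1
    have h2 := h1.const_mul (Real.pi * r ^ 2)⁻¹
    refine h2.congr (Eventually.of_forall fun z => ?_)
    have : Real.pi * r ^ 2 ≠ 0 := by positivity
    simp only
    field_simp
  have hI2 : Integrable (fun z => av r g z * u z) μS := by
    have h1 := hHi.integral_prod_left
    simp only at h1
    rw [hA2] at h1
    have h2 := h1.const_mul (Real.pi * r ^ 2)⁻¹
    refine h2.congr (Eventually.of_forall fun z => ?_)
    have : Real.pi * r ^ 2 ≠ 0 := by positivity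
    simp only
    field_simp
  have hE : ∫ z, g z * av r u z ∂μS = ∫ z, av r g z * u z ∂μS := by
    have h1 : ∫ z, ∫ h, g z * u (z + h) ∂μB ∂μS = ∫ h, ∫ z, g z * u (z + h) ∂μS ∂μB :=
      integral_integral_swap hFi
    have h2 : ∫ z, ∫ h, g (z - h) * u z ∂μB ∂μS = ∫ h, ∫ z, g (z - h) * u z ∂μS ∂μB :=
      integral_integral_swap hHi
    have h3 : ∫ h, ∫ z, g z * u (z + h) ∂μS ∂μB = ∫ h, ∫ z, g (z - h) * u z ∂μS ∂μB := by
      refine integral_congr_ae ?_
      refine (ae_restrict_iff' measurableSet_ball).2 (Eventually.of_forall ?_)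
      intro h hh
      rw [mem_ball_zero_iff] at hh
      exact (hshift h hh).2.symm
    have h4 : ∫ z, ∫ h, g z * u (z + h) ∂μB ∂μS = ∫ z, ∫ h, g (z - h) * u z ∂μB ∂μS := by
      rw [h1, h2, h3]
    rw [hA1, hA2, integral_const_mul, integral_const_mul] at h4
    have : Real.pi * r ^ 2 ≠ 0 := by positivity
    exact mul_left_cancel₀ this h4
  refine ⟨?_, ?_, ?_⟩
  · have h1 : Integrable (fun z => g z * av r u z - g z * u z) μS := hI1.sub hgu
    refine h1.congr (Eventually.of_forall fun z => ?_)
    simp only
    ring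
  · have h1 : Integrable (fun z => av r g z * u z - g z * u z) μS := hI2.sub hgu
    refine h1.congr (Eventually.of_forall fun z => ?_)
    simp only
    ring
  · have h1 : ∫ z, g z * (av r u z - u z) ∂μS =
        ∫ z, g z * av r u z ∂μS - ∫ z, g z * u z ∂μS := by
      rw [← integral_sub hI1 hgu]
      refine integral_congr_ae (Eventually.of_forall fun z => ?_)
      simp only
      ring
    have h2 : ∫ z, (av r g z - g z) * u z ∂μS =
        ∫ z, av r g z * u z ∂μS - ∫ z, g z * u z ∂μS := by
      rw [← integral_sub hI2 hgu]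
      refine integral_congr_ae (Eventually.of_forall fun z => ?_)
      simp only
      ring
    rw [h1, h2, hE]

end Pool.Agent.H97.LIM
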