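import Pool.Agent.H97.LIM.AvL

/-!
# Discretisation of a nice periodic function
-/

set_option autoImplicit false

open Complex MeasureTheory Set Filter Topology Metric

namespace Pool.Agent.H97.LIM

open Pool.Agent.H20.LIM

/-- Integrals over the disc about zero are invariant under complex conjugation. -/
theorem ball_conj (r : ℝ) (f : ℂ → ℝ) :
    ∫ w in ball (0 : ℂ) r, f ((starRingEnd ℂ) w) = ∫ w in ball (0 : ℂ) r, f w := by
  have h1 : MeasurePreserving (fun w : ℂ => (starRingEnd ℂ) w) volume volume :=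
    Complex.conjLIE.measurePreserving
  have h2 : MeasurableEmbedding (fun w : ℂ => (starRingEnd ℂ) w) :=
    Complex.conjLIE.toHomeomorph.measurableEmbedding
  have h3 := h1.setIntegral_preimage_emb h2 f (ball (0 : ℂ) r)
  have h4 : (fun w : ℂ => (starRingEnd ℂ) w) ⁻¹' ball (0 : ℂ) r = ball (0 : ℂ) r := by
    ext w
    simp [mem_ball, dist_eq_norm]
  rw [h4] at h3
  exact h3

theorem av_symm (r : ℝ) (hr : 0 ≤ r) (V : ℂ → ℝ) (hV : ∀ z, V (-(starRingEnd ℂ) z) = V z)
    (z : ℂ) : av r V (-(starRingEnd ℂ) z) = av r V z := by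
  rw [av_eq r hr, av_eq r hr]
  congr 1
  have h1 : ∀ w, V (z + w) = V (-(starRingEnd ℂ) z + -((starRingEnd ℂ) w)) := by
    intro w
    rw [← hV (z + w), map_add]
    congr 1
    ring
  simp only [h1]
  rw [ball_conj r (fun w => V (-(starRingEnd ℂ) z + -w)),
    ball_neg r (fun w => V (-(starRingEnd ℂ) z + w))]

theorem re_int (r : ℝ) : ∫ w in ball (0 : ℂ) r, w.re = 0 := by
  have h := ball_neg r (fun w => w.re)
  simp only [Complex.neg_re] at h
  rw [integral_neg] at h
  linarith

theorem av_lin (r : ℝ) (hr : 0 < r) (q : ℝ) (V : ℂ → ℝ) (z : ℂ)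
    (h : ∀ w : ℂ, ‖w‖ < r → V (z + w) = q / 2 * (z + w).re) : av r V z = q / 2 * z.re := by
  rw [av_eq r hr.le]
  have h1 : ∫ w in ball (0 : ℂ) r, V (z + w) = ∫ w in ball (0 : ℂ) r, (q / 2 * z.re +
      q / 2 * w.re) := by
    refine setIntegral_congr_fun measurableSet_ball ?_
    intro w hw
    rw [mem_ball_zero_iff] at hw
    simp only
    rw [h w hw, Complex.add_re]
    ring
  have hi : IntegrableOn (fun w : ℂ => q / 2 * w.re) (ball (0 : ℂ) r) := by
    have hc : Continuous (fun w : ℂ => q / 2 * w.re) := by fun_prop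
    exact (hc.continuousOn.integrableOn_compact (isCompact_closedBall (0 : ℂ) r)).mono_set
      ball_subset_closedBall
  have hi0 : IntegrableOn (fun _ : ℂ => q / 2 * z.re) (ball (0 : ℂ) r) := by
    exact (continuous_const.continuousOn.integrableOn_compact
      (isCompact_closedBall (0 : ℂ) r)).mono_set ball_subset_closedBall
  rw [h1, integral_add hi0 hi, setIntegral_const, volb r 0 hr.le, integral_const_mul, re_int]
  have : Real.pi * r ^ 2 ≠ 0 := by positivity
  rw [smul_eq_mul]
  field_simp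
  ring

theorem kr_mul (r : ℝ) (hkr : IntegrableOn (kr r) (ball (0 : ℂ) r)) (φ : ℂ → ℝ)
    (hφ : Continuous φ) (M : ℝ) (hM : ∀ w : ℂ, ‖w‖ < r → |φ w| ≤ M) :
    IntegrableOn (fun w => kr r w * φ w) (ball (0 : ℂ) r) := by
  refine Integrable.mono (Integrable.mul_const hkr M) ?_ ?_
  · exact hkr.aestronglyMeasurable.mul hφ.aestronglyMeasurable
  · refine (ae_restrict_iff' measurableSet_ball).2 (Eventually.of_forall ?_)
    intro w hw
    rw [mem_ball_zero_iff] at hw
    rw [norm_mul, norm_mul]
    refine mul_le_mul_of_nonneg_left ?_ (norm_nonneg _)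
    rw [Real.norm_eq_abs, Real.norm_eq_abs]
    exact (hM w hw).trans (le_abs_self M)

theorem pf_disc (hDIS : T_DIS) (hKER : T_KER) (hKR : T_KR) (hAVF : T_AVF) : T_DISC := by
  intro q P V hP hV R δ hR hδ
  obtain ⟨K, hK⟩ := hV.lip
  obtain ⟨r₀, hr₀, hsub⟩ := hV.sub
  have hKd : ∀ z w : ℂ, |V z - V w| ≤ K * ‖z - w‖ := by
    intro z w
    have := hK.dist_le_mul z w
    rwa [Real.dist_eq, dist_eq_norm] at this
  have hVc : Continuous V := hK.continuous
  set D : ℝ := K * (Real.pi * R ^ 2) + 1 with hD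
  have hD0 : 0 < D := by positivity
  set r : ℝ := min r₀ (min (1 / 4) (min (P / 8) (min (δ / 2) (δ / (2 * D))))) with hrdef
  have hr : 0 < r := by
    refine lt_min hr₀ (lt_min (by norm_num) (lt_min (by positivity) (lt_min (by positivity) ?_)))
    positivity
  have hr1 : r ≤ r₀ := min_le_left _ _
  have hr2 : r ≤ 1 / 4 := (min_le_right _ _).trans (min_le_left _ _)
  have hr3 : r ≤ P / 8 := (min_le_right _ _).trans ((min_le_right _ _).trans (min_le_left _ _))
  have hr4 : r ≤ δ / 2 := (min_le_right _ _).trans ((min_le_right _ _).trans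
    ((min_le_right _ _).trans (min_le_left _ _)))
  have hr5 : r ≤ δ / (2 * D) := (min_le_right _ _).trans ((min_le_right _ _).trans
    ((min_le_right _ _).trans (min_le_right _ _)))
  have hKr : K * r * (Real.pi * R ^ 2) ≤ δ / 2 := by
    have h1 : K * (Real.pi * R ^ 2) ≤ D := by rw [hD]; linarith
    have h2 : r * D ≤ δ / 2 := by
      calc r * D ≤ δ / (2 * D) * D := mul_le_mul_of_nonneg_right hr5 hD0.le
        _ = δ / 2 := by field_simp
    nlinarith
  -- the density
  set a : ℂ → ℝ := fun ζ => 4 / (Real.pi * r ^ 2) * (av r V ζ - V ζ) with ha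
  have hac : Continuous a := by
    have h1 := (hAVF V hVc.locallyIntegrable r r hr hr).1
    exact continuous_const.mul (h1.sub hVc)
  have ha0 : ∀ z, 0 ≤ a z := by
    intro z
    have := hsub r hr hr1 z
    have h2 : 0 ≤ av r V z - V z := by linarith
    rw [ha]
    positivity
  have has : ∀ z, a (-(starRingEnd ℂ) z) = a z := by
    intro z
    simp only [ha]
    rw [av_symm r hr.le V hV.symm z, hV.symm z]
  have hpos : ∀ z : ℂ, 1 / 2 + r ≤ z.re → a z = 0 := by
    intro z hz
    have h1 : ∀ w : ℂ, ‖w‖ < r → V (z + w) = q / 2 * (z + w).re := by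
      intro w hw
      have h2 : |w.re| ≤ ‖w‖ := Complex.abs_re_le_norm w
      have h3 := (abs_le.1 h2).1
      have h4 : 1 / 2 ≤ (z + w).re := by
        rw [Complex.add_re]
        linarith
      have h5 : |(z + w).re| = (z + w).re := abs_of_nonneg (by linarith)
      rw [hV.out (z + w) (by rw [h5]; exact h4), h5]
    have h6 := av_lin r hr q V z h1
    have h7 := h1 0 (by simpa using hr)
    rw [add_zero] at h7
    simp only [ha]
    rw [h6, h7]
    ring
  have hab : ∀ z : ℂ, 1 / 2 + r ≤ |z.re| → a z = 0 := by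
    intro z hz
    rcases le_total 0 z.re with h | h
    · rw [abs_of_nonneg h] at hz
      exact hpos z hz
    · rw [abs_of_nonpos h] at hz
      rw [← has z]
      apply hpos
      simpa using hz
  obtain ⟨Λ₀, hΛ₀⟩ := hDIS P (1 / 2 + r) a hP (by linarith) (by linarith) hac ha0 has hab R
    (δ / 2) hR (by positivity)
  -- the potential
  set Wf : ℂ → ℝ := fun z => ∫ w in ball (0 : ℂ) r, kr r w * (V (z + w) - q / 2 * (z + w).re)
    with hWf
  have hpot : ∀ z : ℂ, ∫ ξ in cell P, G (2 * Real.pi / P) (z - ξ) * a ξ = Wf z := by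
    intro z
    have h1 := (hKER q P r V hP hV hr hr2 (by linarith) z).2
    rw [hWf]
    simp only
    rw [← h1, ← integral_const_mul]
    congr 1
    funext ξ
    simp only [ha]
    ring
  obtain ⟨hk0, hki, hk1, hk2⟩ := hKR r hr
  have hclose : ∀ z : ℂ, |Wf z - (V z - q / 2 * z.re)| ≤ K * r := by
    intro z
    have hi1 : IntegrableOn (fun w => kr r w * (V (z + w) - V z)) (ball (0 : ℂ) r) := by
      refine kr_mul r hki _ (by fun_prop) (K * r) ?_
      intro w hw
      refine (hKd (z + w) z).trans ?_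
      rw [add_sub_cancel_left]
      exact mul_le_mul_of_nonneg_left hw.le K.2
    have hi2 : IntegrableOn (fun w => kr r w * w.re) (ball (0 : ℂ) r) := by
      refine kr_mul r hki _ Complex.continuous_re r ?_
      intro w hw
      exact (Complex.abs_re_le_norm w).trans hw.le
    have h1 : Wf z = ∫ w in ball (0 : ℂ) r, (kr r w * (V (z + w) - V z) +
        (V z - q / 2 * z.re) * kr r w - q / 2 * (kr r w * w.re)) := by
      rw [hWf]
      simp only
      congr 1
      funext w
      rw [Complex.add_re]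
      ring
    have h2 : Wf z - (V z - q / 2 * z.re) =
        ∫ w in ball (0 : ℂ) r, kr r w * (V (z + w) - V z) := by
      have hi3 : Integrable (fun w => (V z - q / 2 * z.re) * kr r w)
          (volume.restrict (ball (0 : ℂ) r)) := Integrable.const_mul hki _
      have hi4 : Integrable (fun w => q / 2 * (kr r w * w.re))
          (volume.restrict (ball (0 : ℂ) r)) := Integrable.const_mul hi2 _
      have hi5 : Integrable (fun w => kr r w * (V (z + w) - V z) +
          (V z - q / 2 * z.re) * kr r w) (volume.restrict (ball (0 : ℂ) r)) := hi1.add hi3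
      rw [h1, integral_sub hi5 hi4, integral_add hi1 hi3, integral_const_mul,
        integral_const_mul, hk1, hk2]
      ring
    rw [h2]
    have h3 : ‖∫ w in ball (0 : ℂ) r, kr r w * (V (z + w) - V z)‖ ≤
        ∫ w in ball (0 : ℂ) r, kr r w * (K * r) := by
      refine norm_integral_le_of_norm_le (Integrable.mul_const hki _) ?_
      have h0 : ∀ᵐ w : ℂ ∂(volume.restrict (ball (0 : ℂ) r)), w ≠ 0 := by
        refine ae_restrict_of_ae ?_
        exact compl_mem_ae_iff.2 (measure_singleton (0 : ℂ))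
      have hin : ∀ᵐ w : ℂ ∂(volume.restrict (ball (0 : ℂ) r)), w ∈ ball (0 : ℂ) r :=
        ae_restrict_mem measurableSet_ball
      filter_upwards [h0, hin] with w hw0 hw
      rw [mem_ball_zero_iff] at hw
      rw [norm_mul, Real.norm_eq_abs, Real.norm_eq_abs, abs_of_nonneg (hk0 w hw0)]
      refine mul_le_mul_of_nonneg_left ?_ (hk0 w hw0)
      refine (hKd (z + w) z).trans ?_
      rw [add_sub_cancel_left]
      exact mul_le_mul_of_nonneg_left hw.le K.2
    rw [integral_mul_const, hk1, one_mul, Real.norm_eq_abs] at h3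
    exact h3
  have hzero : ∀ z : ℂ, 1 / 2 + r ≤ z.re → Wf z = 0 := by
    intro z hz
    rw [hWf]
    refine setIntegral_eq_zero_of_forall_eq_zero ?_
    intro w hw
    rw [mem_ball_zero_iff] at hw
    have h2 : |w.re| ≤ ‖w‖ := Complex.abs_re_le_norm w
    have h3 := (abs_le.1 h2).1
    have h4 : 1 / 2 ≤ (z + w).re := by
      rw [Complex.add_re]
      linarith
    have h5 : |(z + w).re| = (z + w).re := abs_of_nonneg (by linarith)
    rw [hV.out (z + w) (by rw [h5]; exact h4), h5]
    ring
  refine ⟨max Λ₀ 1, fun Λ hΛ => ?_⟩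
  have hΛ1 : 1 ≤ Λ := (le_max_right _ _).trans hΛ
  obtain ⟨n, ζ, σ, hσ, h1, h2⟩ := hΛ₀ Λ ((le_max_left _ _).trans hΛ)
  refine ⟨n, ζ, σ, hσ, ?_, ?_⟩
  · simp only [hpot] at h1
    unfold L1 at h1 ⊢
    have h3 : ∀ z : ℂ, ‖Real.log ‖∏ j, (1 - cexp (-((2 * Real.pi / P : ℝ) * (z - ζ j))))‖ / Λ -
        (V z - q / 2 * z.re)‖ₑ ≤
        ‖Real.log ‖∏ j, (1 - cexp (-((2 * Real.pi / P : ℝ) * (z - ζ j))))‖ / Λ - Wf z‖ₑ +
          ENNReal.ofReal (K * r) := by
      intro z
      have h4 : Real.log ‖∏ j, (1 - cexp (-((2 * Real.pi / P : ℝ) * (z - ζ j))))‖ / Λ -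
          (V z - q / 2 * z.re) =
          (Real.log ‖∏ j, (1 - cexp (-((2 * Real.pi / P : ℝ) * (z - ζ j))))‖ / Λ - Wf z) +
            (Wf z - (V z - q / 2 * z.re)) := by ring
      rw [h4]
      refine (enorm_add_le _ _).trans ?_
      gcongr
      rw [← ofReal_norm, Real.norm_eq_abs]
      exact ENNReal.ofReal_le_ofReal (hclose z)
    calc ∫⁻ z in closedBall (0 : ℂ) R,
          ‖Real.log ‖∏ j, (1 - cexp (-((2 * Real.pi / P : ℝ) * (z - ζ j))))‖ / Λ -
            (V z - q / 2 * z.re)‖ₑ
        ≤ ∫⁻ z in closedBall (0 : ℂ) R,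
          (‖Real.log ‖∏ j, (1 - cexp (-((2 * Real.pi / P : ℝ) * (z - ζ j))))‖ / Λ - Wf z‖ₑ +
            ENNReal.ofReal (K * r)) := lintegral_mono h3
      _ = (∫⁻ z in closedBall (0 : ℂ) R,
          ‖Real.log ‖∏ j, (1 - cexp (-((2 * Real.pi / P : ℝ) * (z - ζ j))))‖ / Λ - Wf z‖ₑ) +
            ENNReal.ofReal (K * r) * volume (closedBall (0 : ℂ) R) := by
          rw [lintegral_add_right _ measurable_const, setLIntegral_const]
      _ ≤ ENNReal.ofReal (δ / 2) + ENNReal.ofReal (δ / 2) := by
          refine add_le_add h1 ?_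
          have h5 : volume (closedBall (0 : ℂ) R) = ENNReal.ofReal (Real.pi * R ^ 2) := by
            rw [Complex.volume_closedBall, ← ENNReal.ofReal_pow hR.le,
              ← ENNReal.ofReal_coe_nnreal, ← ENNReal.ofReal_mul (by positivity)]
            congr 1
            rw [NNReal.coe_real_pi]
            ring
          rw [h5, ← ENNReal.ofReal_mul (by positivity)]
          exact ENNReal.ofReal_le_ofReal hKr
      _ = ENNReal.ofReal δ := by
          rw [← ENNReal.ofReal_add (by positivity) (by positivity)]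
          congr 1
          ring
  · intro z hz
    obtain ⟨h3, h4⟩ := h2 z (by linarith)
    refine ⟨h3, ?_⟩
    rw [hpot, hzero z (by linarith), sub_zero, abs_div, abs_of_pos (by linarith : 0 < Λ),
      div_le_iff₀ (by linarith)] at h4
    refine h4.trans ?_
    nlinarith

end Pool.Agent.H97.LIM
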