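import Pool.Agent.H20.LIM.Targets

/-!
# Elementary facts on disc averages
-/

set_option autoImplicit false

open Complex MeasureTheory Set Filter Topology Metric

namespace Pool.Agent.H97.LIM

open Pool.Agent.H20.LIM

/-- Disc integrals as integrals over the disc about zero. -/
theorem ball_int (r : ℝ) (f : ℂ → ℝ) (z : ℂ) :
    ∫ w in ball z r, f w = ∫ w in ball (0 : ℂ) r, f (z + w) := by
  have h1 : MeasurePreserving (fun w : ℂ => z + w) volume volume :=
    measurePreserving_add_left volume z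
  have h2 : MeasurableEmbedding (fun w : ℂ => z + w) := measurableEmbedding_addLeft z
  have h3 := h1.setIntegral_preimage_emb h2 f (ball z r)
  have h4 : (fun w : ℂ => z + w) ⁻¹' ball z r = ball (0 : ℂ) r := by
    ext w
    simp [mem_ball, dist_eq_norm]
  rw [h4] at h3
  exact h3.symm

/-- Integrals over the disc about zero are invariant under the reflection in zero. -/
theorem ball_neg (r : ℝ) (f : ℂ → ℝ) :
    ∫ w in ball (0 : ℂ) r, f (-w) = ∫ w in ball (0 : ℂ) r, f w := by
  have h1 : MeasurePreserving (fun w : ℂ => -w) volume volume :=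
    Measure.measurePreserving_neg volume
  have h2 : MeasurableEmbedding (fun w : ℂ => -w) := (MeasurableEquiv.neg ℂ).measurableEmbedding
  have h3 := h1.setIntegral_preimage_emb h2 f (ball (0 : ℂ) r)
  have h4 : (fun w : ℂ => -w) ⁻¹' ball (0 : ℂ) r = ball (0 : ℂ) r := by
    ext w
    simp [mem_ball, dist_eq_norm]
  rw [h4] at h3
  exact h3

theorem volb (r : ℝ) (z : ℂ) (hr : 0 ≤ r) : volume.real (ball z r) = Real.pi * r ^ 2 := by
  rw [Measure.real, Complex.volume_ball]
  simp [ENNReal.toReal_mul, hr]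
  ring

theorem av_eq (r : ℝ) (hr : 0 ≤ r) (f : ℂ → ℝ) (z : ℂ) :
    av r f z = (Real.pi * r ^ 2)⁻¹ * ∫ w in ball (0 : ℂ) r, f (z + w) := by
  unfold av
  rw [setAverage_eq, volb r z hr, ball_int, smul_eq_mul]

theorem av_eq' (r : ℝ) (hr : 0 ≤ r) (f : ℂ → ℝ) (z : ℂ) :
    av r f z = (Real.pi * r ^ 2)⁻¹ * ∫ w in ball (0 : ℂ) r, f (z - w) := by
  rw [av_eq r hr, ← ball_neg r (fun w => f (z - w))]
  simp only [sub_neg_eq_add]

end Pool.Agent.H97.LIM
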